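import Pool.Agent.Lib.MP_f302e8_u83.TwoEx
import Pool.Agent.Lib.MP_f302e8_gs.Defs

/-!
# Word sums over large alphabets at `x = 637/1000`
-/

set_option autoImplicit false

namespace Pool.Agent.C4U

open Finset Pool.C4

theorem words_mem {κ : ℕ} {C : Finset ℕ} {q n : ℕ} {w : Fin n → ℕ} (hw : w ∈ words κ C q n) :
    (∀ i, w i ∈ Icc 1 q) ∧ OkWord κ C q n w := by
  simp only [words, mem_filter, Fintype.mem_piFinset] at hw
  exact hw

theorem W_nonneg {κ : ℕ} {x : ℝ} (hx : 0 ≤ x) (C : Finset ℕ) (q n : ℕ) : 0 ≤ W κ x C q n :=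
  sum_nonneg fun _ _ => pow_nonneg hx _

theorem W_mono {κ : ℕ} {x x' : ℝ} (hx : 0 ≤ x) (hxx : x ≤ x') (C : Finset ℕ) (q n : ℕ) :
    W κ x C q n ≤ W κ x' C q n :=
  sum_le_sum fun _ _ => pow_le_pow_left₀ hx hxx _

theorem geo_Icc {x : ℝ} (hx : 0 ≤ x) (hx1 : x < 1) (a b : ℕ) :
    ∑ k ∈ Icc a b, x ^ k ≤ x ^ a / (1 - x) := by
  have h1 : ∑ k ∈ Icc a b, x ^ k ≤ ∑ k ∈ Ico a (b + 1), x ^ k := by
    refine sum_le_sum_of_subset_of_nonneg ?_ fun k _ _ => pow_nonneg hx k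
    intro k hk
    rw [mem_Icc] at hk
    rw [mem_Ico]
    omega
  exact h1.trans (geom_sum_Ico_le_of_lt_one hx hx1)

/-- The plain two-class bound for `W`. -/
theorem W_plain {A A' B B' : ℝ} {D : ℕ} {ρ K : ℝ} (h : TC A A' B B' D ρ K) {κ q s s' L n : ℕ}
    {C : Finset ℕ} (hC : C ⊆ range L) (hD : D ≤ C.card) {x : ℝ} (hx : 0 ≤ x)
    (hss : s + s' < q)
    (gA : ∑ k ∈ Icc 1 q, x ^ k ≤ A) (gA' : ∑ k ∈ Icc (s + 1) q, x ^ k ≤ A')
    (gB : ∑ k ∈ Icc 1 q, x ^ k ≤ B) (gB' : ∑ k ∈ Icc (s' + 1) q, x ^ k ≤ B')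
    {M : ℝ} (gM : ∑ k ∈ Icc 1 q, x ^ k ≤ M) (hM1 : 1 ≤ M) :
    W κ x C q n ≤ M * K ^ L * ρ ^ (n / 2) := by
  have h1 := h n q s s' L C hC hD (fun k => x ^ k) (fun k => x ^ k) (fun k => x ^ k)
    (fun k => pow_nonneg hx k) (fun k => pow_nonneg hx k) (fun k => pow_nonneg hx k)
    gA gA' gB gB' M gM hM1 (words κ C q n) (fun w hw => (words_mem hw).1) (by
      intro w hw i j c hc _ hij hws
      have := (words_mem hw).2.1 i j c hc hij
      omega)
  refine le_trans (le_of_eq ?_) h1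
  unfold W
  refine sum_congr rfl fun w _ => ?_
  rw [← prod_pow_eq_pow_sum]
  refine prod_congr rfl fun i _ => ?_
  unfold wt
  split_ifs <;> rfl

/-- Weighted letters for the AM-GM trick. -/
noncomputable def fw (x c : ℝ) (k : ℕ) : ℝ := if k = 1 then c * x else x ^ k

theorem fw_nonneg {x c : ℝ} (hx : 0 ≤ x) (hc : 0 ≤ c) (k : ℕ) : 0 ≤ fw x c k := by
  unfold fw
  split_ifs
  · exact mul_nonneg hc hx
  · exact pow_nonneg hx k

theorem fw_mul {x : ℝ} (k : ℕ) : fw x 2 k * fw x (1 / 2) k = x ^ k * x ^ k := by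
  unfold fw
  split_ifs with h
  · subst h; ring
  · rfl

theorem W_four {A A' B B' : ℝ} {D D' : ℕ} {ρ K ρ' K' : ℝ} (h : TC A A' B B' D ρ K)
    (h' : TC B B' A A' D' ρ' K')
    {κ L n : ℕ} {C : Finset ℕ} (hC : C ⊆ range L) (hD : D ≤ C.card) (hD' : D' ≤ C.card)
    {x : ℝ} (hx : 0 ≤ x)
    (gA : ∑ k ∈ Icc 1 4, fw x 2 k ≤ A) (gA' : ∑ k ∈ Icc 2 4, fw x 2 k ≤ A')
    (gB : ∑ k ∈ Icc 1 4, fw x (1 / 2) k ≤ B) (gB' : ∑ k ∈ Icc 3 4, fw x (1 / 2) k ≤ B')
    {M : ℝ} (gM : ∑ k ∈ Icc 1 4, x ^ k ≤ M) (hM1 : 1 ≤ M) :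
    W κ x C 4 n ≤ M * K ^ L * ρ ^ (n / 2) + M * K' ^ L * ρ' ^ (n / 2) := by
  have h1 := h n 4 1 2 L C hC hD (fw x 2) (fw x (1 / 2)) (fun k => x ^ k)
    (fw_nonneg hx (by norm_num)) (fw_nonneg hx (by norm_num)) (fun k => pow_nonneg hx k)
    gA gA' gB gB' M gM hM1 (words κ C 4 n) (fun w hw => (words_mem hw).1) (by
      intro w hw i j c hc _ hij hws
      have := (words_mem hw).2.1 i j c hc hij
      omega)
  have h2 := h' n 4 2 1 L C hC hD' (fw x (1 / 2)) (fw x 2) (fun k => x ^ k)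
    (fw_nonneg hx (by norm_num)) (fw_nonneg hx (by norm_num)) (fun k => pow_nonneg hx k)
    gB gB' gA gA' M gM hM1 (words κ C 4 n) (fun w hw => (words_mem hw).1) (by
      intro w hw i j c hc _ hij hws
      have := (words_mem hw).2.1 i j c hc hij
      omega)
  refine le_trans ?_ (add_le_add h1 h2)
  unfold W
  rw [← sum_add_distrib]
  refine sum_le_sum fun w _ => ?_
  have n1 : 0 ≤ ∏ i : Fin n, wt n (fw x 2) (fw x (1 / 2)) (fun k => x ^ k) i.val (w i) :=
    prod_nonneg fun i _ => wt_nonneg (fw_nonneg hx (by norm_num)) (fw_nonneg hx (by norm_num))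
      (fun k => pow_nonneg hx k) _ _
  have n2 : 0 ≤ ∏ i : Fin n, wt n (fw x (1 / 2)) (fw x 2) (fun k => x ^ k) i.val (w i) :=
    prod_nonneg fun i _ => wt_nonneg (fw_nonneg hx (by norm_num)) (fw_nonneg hx (by norm_num))
      (fun k => pow_nonneg hx k) _ _
  have n3 : (∏ i : Fin n, wt n (fw x 2) (fw x (1 / 2)) (fun k => x ^ k) i.val (w i)) *
      (∏ i : Fin n, wt n (fw x (1 / 2)) (fw x 2) (fun k => x ^ k) i.val (w i)) =
      (x ^ ∑ i, w i) * (x ^ ∑ i, w i) := by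
    rw [← prod_pow_eq_pow_sum, ← prod_mul_distrib, ← prod_mul_distrib]
    refine prod_congr rfl fun i _ => ?_
    unfold wt
    split_ifs
    · exact fw_mul _
    · rw [mul_comm]; exact fw_mul _
    · rfl
  have n4 : (0 : ℝ) ≤ x ^ ∑ i, w i := pow_nonneg hx _
  nlinarith

theorem half_geom {ρ : ℝ} (h0 : 0 ≤ ρ) (h1 : ρ < 1) (N : ℕ) :
    ∑ n ∈ range N, ρ ^ (n / 2) ≤ 2 / (1 - ρ) := by
  have key : ∀ m : ℕ, ∑ n ∈ range (2 * m), ρ ^ (n / 2) ≤ 2 * (1 - ρ ^ m) / (1 - ρ) := by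
    intro m
    induction m with
    | zero => simp
    | succ m ih =>
      have e1 : 2 * (m + 1) = 2 * m + 1 + 1 := by ring
      rw [e1, sum_range_succ, sum_range_succ]
      have e2 : 2 * m / 2 = m := by omega
      have e3 : (2 * m + 1) / 2 = m := by omega
      rw [e2, e3]
      have h2 : (0 : ℝ) < 1 - ρ := by linarith
      rw [le_div_iff₀ h2] at ih ⊢
      rw [pow_succ]
      nlinarith
  have h2 : (0 : ℝ) < 1 - ρ := by linarith
  have h3 : ∑ n ∈ range N, ρ ^ (n / 2) ≤ ∑ n ∈ range (2 * N), ρ ^ (n / 2) :=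
    sum_le_sum_of_subset_of_nonneg (by intro n hn; rw [mem_range] at *; omega)
      fun n _ _ => pow_nonneg h0 _
  refine h3.trans ((key N).trans ?_)
  rw [div_le_div_iff_of_pos_right h2]
  have : 0 ≤ ρ ^ N := pow_nonneg h0 N
  linarith

/-- All alphabets with at least three letters, at `x₀ = 637/1000`. -/
theorem big_words : ∃ (D : ℕ) (ρ K : ℝ), 0 < ρ ∧ ρ < 1 ∧ 1 ≤ K ∧
    ∀ (κ q n L : ℕ) (C : Finset ℕ), 3 ≤ q → C ⊆ range L → D ≤ C.card →
      W κ (637 / 1000) C q n ≤ 4 * K ^ L * ρ ^ (n / 2) := by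
  obtain ⟨D3, ρ3, K3, a3, b3, c3, T3⟩ := twoClass (A := 13013 / 10000) (A' := 6643 / 10000)
    (B := 13013 / 10000) (B' := 6643 / 10000) (by norm_num) (by norm_num) (by norm_num)
    (by norm_num) (by norm_num) (by norm_num)
  obtain ⟨D4, ρ4, K4, a4, b4, c4, T4⟩ := twoClass (A := 2103 / 1000) (A' := 829 / 1000)
    (B := 11475 / 10000) (B' := 42313 / 100000) (by norm_num) (by norm_num) (by norm_num)
    (by norm_num) (by norm_num) (by norm_num)
  obtain ⟨D4', ρ4', K4', a4', b4', c4', T4'⟩ := twoClass (A := 11475 / 10000)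
    (A' := 42313 / 100000) (B := 2103 / 1000) (B' := 829 / 1000) (by norm_num) (by norm_num)
    (by norm_num) (by norm_num) (by norm_num) (by norm_num)
  obtain ⟨D5, ρ5, K5, a5, b5, c5, T5⟩ := twoClass (A := 15708 / 10000) (A' := 5281 / 10000)
    (B := 15708 / 10000) (B' := 5281 / 10000) (by norm_num) (by norm_num) (by norm_num)
    (by norm_num) (by norm_num) (by norm_num)
  obtain ⟨D6, ρ6, K6, a6, b6, c6, T6⟩ := twoClass (A := 16377 / 10000) (A' := 5949 / 10000)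
    (B := 16377 / 10000) (B' := 3364 / 10000) (by norm_num) (by norm_num) (by norm_num)
    (by norm_num) (by norm_num) (by norm_num)
  obtain ⟨D7, ρ7, K7, a7, b7, c7, T7⟩ := twoClass (A := 17549 / 10000) (A' := 4536 / 10000)
    (B := 17549 / 10000) (B' := 4536 / 10000) (by norm_num) (by norm_num) (by norm_num)
    (by norm_num) (by norm_num) (by norm_num)
  set D := D3 + D4 + D4' + D5 + D6 + D7 with hD
  set ρ := max (max (max ρ3 ρ4) (max ρ4' ρ5)) (max ρ6 ρ7) with hρ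
  set K := K3 + K4 + K4' + K5 + K6 + K7 with hK
  have m3 : ρ3 ≤ ρ := (le_max_left _ _).trans ((le_max_left _ _).trans (le_max_left _ _))
  have m4 : ρ4 ≤ ρ := (le_max_right _ _).trans ((le_max_left _ _).trans (le_max_left _ _))
  have m4' : ρ4' ≤ ρ := (le_max_left _ _).trans ((le_max_right _ _).trans (le_max_left _ _))
  have m5 : ρ5 ≤ ρ := (le_max_right _ _).trans ((le_max_right _ _).trans (le_max_left _ _))
  have m6 : ρ6 ≤ ρ := (le_max_left _ _).trans (le_max_right _ _)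
  have m7 : ρ7 ≤ ρ := (le_max_right _ _).trans (le_max_right _ _)
  refine ⟨D, ρ, K, a3.trans_le m3, ?_, by linarith, ?_⟩
  · rw [hρ]
    exact max_lt (max_lt (max_lt b3 b4) (max_lt b4' b5)) (max_lt b6 b7)
  · intro κ q n L C hq hC hCD
    have U3 := T3.mono (D' := D) (ρ' := ρ) (K' := K) (by omega) a3.le m3 (by linarith)
      (by linarith)
    have U4 := T4.mono (D' := D) (ρ' := ρ) (K' := K) (by omega) a4.le m4 (by linarith)
      (by linarith)
    have U4' := T4'.mono (D' := D) (ρ' := ρ) (K' := K) (by omega) a4'.le m4' (by linarith)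
      (by linarith)
    have U5 := T5.mono (D' := D) (ρ' := ρ) (K' := K) (by omega) a5.le m5 (by linarith)
      (by linarith)
    have U6 := T6.mono (D' := D) (ρ' := ρ) (K' := K) (by omega) a6.le m6 (by linarith)
      (by linarith)
    have U7 := T7.mono (D' := D) (ρ' := ρ) (K' := K) (by omega) a7.le m7 (by linarith)
      (by linarith)
    have hx : (0 : ℝ) ≤ 637 / 1000 := by norm_num
    have hx1 : (637 / 1000 : ℝ) < 1 := by norm_num
    have hP : 0 ≤ K ^ L * ρ ^ (n / 2) := by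
      have : 0 ≤ K := by linarith
      have : 0 ≤ ρ := a3.le.trans m3
      positivity
    have fin2 : ∀ {w : ℝ}, w ≤ 2 * K ^ L * ρ ^ (n / 2) → w ≤ 4 * K ^ L * ρ ^ (n / 2) := by
      intro w hw
      nlinarith
    rcases Nat.lt_or_ge q 7 with hq7 | hq7
    · have i3 : Icc 1 3 = ({1, 2, 3} : Finset ℕ) := by decide
      have i4 : Icc 1 4 = ({1, 2, 3, 4} : Finset ℕ) := by decide
      have i5 : Icc 1 5 = ({1, 2, 3, 4, 5} : Finset ℕ) := by decide
      have i6 : Icc 1 6 = ({1, 2, 3, 4, 5, 6} : Finset ℕ) := by decide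
      have j3 : Icc (1 + 1) 3 = ({2, 3} : Finset ℕ) := by decide
      have j5 : Icc (2 + 1) 5 = ({3, 4, 5} : Finset ℕ) := by decide
      have j6 : Icc (2 + 1) 6 = ({3, 4, 5, 6} : Finset ℕ) := by decide
      have j6' : Icc (3 + 1) 6 = ({4, 5, 6} : Finset ℕ) := by decide
      have j4 : Icc 2 4 = ({2, 3, 4} : Finset ℕ) := by decide
      have j4' : Icc 3 4 = ({3, 4} : Finset ℕ) := by decide
      have hq' : q = 3 ∨ q = 4 ∨ q = 5 ∨ q = 6 := by omega
      rcases hq' with rfl | rfl | rfl | rfl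
      · refine fin2 (W_plain U3 hC hCD hx (s := 1) (s' := 1) (by norm_num) ?_ ?_ ?_ ?_ ?_
          (by norm_num))
        · rw [i3]; norm_num
        · rw [j3]; norm_num
        · rw [i3]; norm_num
        · rw [j3]; norm_num
        · rw [i3]; norm_num
      · refine (W_four U4 U4' hC hCD hCD hx (M := 2) ?_ ?_ ?_ ?_ ?_ (by norm_num)).trans ?_
        · rw [i4]; norm_num [fw]
        · rw [j4]; norm_num [fw]
        · rw [i4]; norm_num [fw]
        · rw [j4']; norm_num [fw]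
        · rw [i4]; norm_num
        · linarith
      · refine fin2 (W_plain U5 hC hCD hx (s := 2) (s' := 2) (by norm_num) ?_ ?_ ?_ ?_ ?_
          (by norm_num))
        · rw [i5]; norm_num
        · rw [j5]; norm_num
        · rw [i5]; norm_num
        · rw [j5]; norm_num
        · rw [i5]; norm_num
      · refine fin2 (W_plain U6 hC hCD hx (s := 2) (s' := 3) (by norm_num) ?_ ?_ ?_ ?_ ?_
          (by norm_num))
        · rw [i6]; norm_num
        · rw [j6]; norm_num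
        · rw [i6]; norm_num
        · rw [j6']; norm_num
        · rw [i6]; norm_num
    · refine fin2 (W_plain U7 hC hCD hx (s := 3) (s' := 3) (by omega) ?_ ?_ ?_ ?_ ?_
          (by norm_num))
      · exact (geo_Icc hx hx1 1 q).trans (by norm_num)
      · exact (geo_Icc hx hx1 (3 + 1) q).trans (by norm_num)
      · exact (geo_Icc hx hx1 1 q).trans (by norm_num)
      · exact (geo_Icc hx hx1 (3 + 1) q).trans (by norm_num)
      · exact (geo_Icc hx hx1 1 q).trans (by norm_num)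

/-- All alphabets with at least three letters, summed over the length. -/
theorem big_words_sum : ∃ (D : ℕ) (B : ℝ), 1 ≤ B ∧
    ∀ (κ q N L : ℕ) (C : Finset ℕ), 3 ≤ q → 0 < L → C ⊆ range L → D ≤ C.card →
      ∀ x : ℝ, 0 ≤ x → x ≤ 637 / 1000 → ∑ n ∈ range N, W κ x C q n ≤ B ^ L := by
  obtain ⟨D, ρ, K, h0, h1, h2, h3⟩ := big_words
  have hρ : (0 : ℝ) < 1 - ρ := by linarith
  set c : ℝ := 4 * (2 / (1 - ρ)) with hc
  have hc1 : 1 ≤ c := by
    rw [hc]
    have : 2 ≤ 2 / (1 - ρ) := by rw [le_div_iff₀ hρ]; linarith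
    linarith
  refine ⟨D, c * K, one_le_mul_of_one_le_of_one_le hc1 h2, ?_⟩
  intro κ q N L C hq hL hC hD x hx hx1
  calc ∑ n ∈ range N, W κ x C q n ≤ ∑ n ∈ range N, 4 * K ^ L * ρ ^ (n / 2) :=
        sum_le_sum fun n _ => (W_mono hx hx1 C q n).trans (h3 κ q n L C hq hC hD)
    _ = 4 * K ^ L * ∑ n ∈ range N, ρ ^ (n / 2) := by rw [mul_sum]
    _ ≤ 4 * K ^ L * (2 / (1 - ρ)) :=
        mul_le_mul_of_nonneg_left (half_geom h0.le h1 N) (by positivity)
    _ = c * K ^ L := by rw [hc]; ring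
    _ ≤ c ^ L * K ^ L := by
        refine mul_le_mul_of_nonneg_right ?_ (by positivity)
        calc c = c ^ 1 := (pow_one c).symm
          _ ≤ c ^ L := pow_le_pow_right₀ hc1 hL
    _ = (c * K) ^ L := (mul_pow c K L).symm

end Pool.Agent.C4U
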