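import Pool.Agent.Lib.MP_f302e8_u83.Finger

/-!
# Sums over boxes of words
-/

set_option autoImplicit false

namespace Pool.Agent.C4U

open Finset
open scoped Pointwise

theorem prod_split (n : ℕ) (f : ℕ → ℝ) :
    ∏ i ∈ range n, f i = (∏ i ∈ range (n / 2), f i) * (∏ i ∈ range (n / 2), f (n - 1 - i)) *
      (if n % 2 = 1 then f (n / 2) else 1) := by
  obtain ⟨h, hh⟩ : ∃ h, n / 2 = h := ⟨_, rfl⟩
  rw [hh]
  rcases Nat.mod_two_eq_zero_or_one n with hm | hm
  · have hn : n = h + h := by omega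
    have h1 : ¬ (n % 2 = 1) := by omega
    rw [if_neg h1, mul_one]
    have h2 : ∏ i ∈ range h, f (n - 1 - i) = ∏ i ∈ range h, f (h + i) := by
      rw [← prod_range_reflect (fun i => f (h + i)) h]
      refine prod_congr rfl fun i hi => ?_
      rw [mem_range] at hi
      congr 1
      omega
    rw [h2, hn, prod_range_add]
  · have hn : n = h + 1 + h := by omega
    rw [if_pos hm]
    have h2 : ∏ i ∈ range h, f (n - 1 - i) = ∏ i ∈ range h, f (h + 1 + i) := by
      rw [← prod_range_reflect (fun i => f (h + 1 + i)) h]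
      refine prod_congr rfl fun i hi => ?_
      rw [mem_range] at hi
      congr 1
      omega
    rw [h2, hn, prod_range_add, prod_range_succ]
    ring

theorem prod_ite_pow (h : ℕ) (U : Finset ℕ) (hU : U ⊆ range h) (A A' : ℝ) :
    ∏ i ∈ range h, (if i ∈ U then A else A') = A ^ U.card * A' ^ (h - U.card) := by
  classical
  rw [prod_ite, prod_const, prod_const]
  have h1 : (range h).filter (fun i => i ∈ U) = U := by
    ext i
    rw [mem_filter]
    exact ⟨fun hi => hi.2, fun hi => ⟨hU hi, hi⟩⟩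
  have h2 : ((range h).filter (fun i => i ∉ U)).card = h - U.card := by
    have h3 := card_filter_add_card_filter_not (s := range h) (fun i => i ∈ U)
    rw [h1, card_range] at h3
    omega
  rw [h1, h2]

/-- The box attached to two sets of positions. -/
def box (n q s s' : ℕ) (U V : Finset ℕ) (i : ℕ) : Finset ℕ :=
  if i < n / 2 then (if i ∈ U then Icc 1 q else Icc (s + 1) q)
  else if n - 1 - i < n / 2 then (if n - 1 - i ∈ V then Icc (s' + 1) q else Icc 1 q)
  else Icc 1 q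

/-- The letter weight at a position. -/
def wt (n : ℕ) (f1 f2 f3 : ℕ → ℝ) (i k : ℕ) : ℝ :=
  if i < n / 2 then f1 k else if n - 1 - i < n / 2 then f2 k else f3 k

theorem wt_nonneg {n : ℕ} {f1 f2 f3 : ℕ → ℝ} (h1 : ∀ k, 0 ≤ f1 k) (h2 : ∀ k, 0 ≤ f2 k)
    (h3 : ∀ k, 0 ≤ f3 k) (i k : ℕ) : 0 ≤ wt n f1 f2 f3 i k := by
  unfold wt
  split_ifs
  · exact h1 k
  · exact h2 k
  · exact h3 k

theorem box_sum {n q s s' : ℕ} {U V : Finset ℕ} (hU : U ⊆ range (n / 2)) (hV : V ⊆ range (n / 2))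
    {f1 f2 f3 : ℕ → ℝ} (h1 : ∀ k, 0 ≤ f1 k) (h2 : ∀ k, 0 ≤ f2 k) (h3 : ∀ k, 0 ≤ f3 k)
    {A A' B B' M : ℝ} (hA : ∑ k ∈ Icc 1 q, f1 k ≤ A) (hA' : ∑ k ∈ Icc (s + 1) q, f1 k ≤ A')
    (hB : ∑ k ∈ Icc 1 q, f2 k ≤ B) (hB' : ∑ k ∈ Icc (s' + 1) q, f2 k ≤ B')
    (hM : ∑ k ∈ Icc 1 q, f3 k ≤ M) (hM1 : 1 ≤ M) (hA0 : 0 ≤ A) (hA'0 : 0 ≤ A') (hB0 : 0 ≤ B)
    (hB'0 : 0 ≤ B') :
    ∑ w ∈ Fintype.piFinset (fun i : Fin n => box n q s s' U V i.val),
      ∏ i : Fin n, wt n f1 f2 f3 i.val (w i) ≤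
    (A ^ U.card * A' ^ (n / 2 - U.card)) * (B' ^ V.card * B ^ (n / 2 - V.card)) * M := by
  rw [← prod_univ_sum (fun i : Fin n => box n q s s' U V i.val)
    (fun i k => wt n f1 f2 f3 i.val k)]
  set g : ℕ → ℝ := fun i => ∑ k ∈ box n q s s' U V i, wt n f1 f2 f3 i k with hg
  have hg0 : ∀ i, 0 ≤ g i := fun i => sum_nonneg fun k _ => wt_nonneg h1 h2 h3 i k
  have e1 : ∏ i : Fin n, ∑ k ∈ box n q s s' U V i.val, wt n f1 f2 f3 i.val k =
      ∏ i ∈ range n, g i := Fin.prod_univ_eq_prod_range g n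
  rw [e1, prod_split]
  have p1 : ∏ i ∈ range (n / 2), g i ≤ A ^ U.card * A' ^ (n / 2 - U.card) := by
    rw [← prod_ite_pow (n / 2) U hU A A']
    refine prod_le_prod (fun i _ => hg0 i) fun i hi => ?_
    rw [mem_range] at hi
    simp only [hg, box, wt, if_pos hi]
    split_ifs
    · exact hA
    · exact hA'
  have p2 : ∏ i ∈ range (n / 2), g (n - 1 - i) ≤ B' ^ V.card * B ^ (n / 2 - V.card) := by
    rw [← prod_ite_pow (n / 2) V hV B' B]
    refine prod_le_prod (fun i _ => hg0 _) fun i hi => ?_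
    rw [mem_range] at hi
    have n1 : ¬ (n - 1 - i < n / 2) := by omega
    have n2 : n - 1 - (n - 1 - i) = i := by omega
    simp only [hg, box, wt, if_neg n1, n2, if_pos hi]
    split_ifs
    · exact hB'
    · exact hB
  have p3 : (if n % 2 = 1 then g (n / 2) else 1) ≤ M := by
    split_ifs with hm
    · have n1 : ¬ (n / 2 < n / 2) := by omega
      have n2 : ¬ (n - 1 - n / 2 < n / 2) := by omega
      simp only [hg, box, wt, if_neg n1, if_neg n2]
      exact hM
    · exact hM1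
  have q0 : (0 : ℝ) ≤ if n % 2 = 1 then g (n / 2) else 1 := by
    split_ifs
    · exact hg0 _
    · exact zero_le_one
  have q1 : 0 ≤ ∏ i ∈ range (n / 2), g i := prod_nonneg fun i _ => hg0 i
  have q2 : 0 ≤ ∏ i ∈ range (n / 2), g (n - 1 - i) := prod_nonneg fun i _ => hg0 _
  have r1 : 0 ≤ A ^ U.card * A' ^ (n / 2 - U.card) := by positivity
  have r2 : 0 ≤ B' ^ V.card * B ^ (n / 2 - V.card) := by positivity
  exact mul_le_mul (mul_le_mul p1 p2 q2 r1) p3 q0 (mul_nonneg r1 r2)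

theorem pow_div_le {R : ℝ} (hR : 1 ≤ R) {e : ℕ} (he : 0 < e) (N : ℕ) :
    R ^ (N / e) ≤ (1 + (R - 1) / e) ^ N := by
  have he' : (0 : ℝ) < e := by exact_mod_cast he
  have h0 : 0 ≤ (R - 1) / e := div_nonneg (by linarith) he'.le
  have h1 : R ≤ (1 + (R - 1) / e) ^ e := by
    have h2 := one_add_mul_le_pow (a := (R - 1) / e) (by linarith) e
    have h3 : 1 + (e : ℝ) * ((R - 1) / e) = R := by
      field_simp
      ring
    linarith
  calc R ^ (N / e) ≤ ((1 + (R - 1) / e) ^ e) ^ (N / e) :=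
        pow_le_pow_left₀ (by linarith) h1 _
    _ = (1 + (R - 1) / e) ^ (e * (N / e)) := by rw [← pow_mul]
    _ ≤ (1 + (R - 1) / e) ^ N :=
        pow_le_pow_right₀ (by linarith) (Nat.mul_div_le N e)

theorem count_small (h N e : ℕ) (he : 0 < e) {η : ℝ} (hη : 0 < η) (hη1 : η ≤ 1) :
    ((((range h).powerset.filter fun T => T.card * e ≤ N).card : ℕ) : ℝ) ≤
      (1 + η) ^ h * (1 + (1 / η - 1) / e) ^ N := by
  have hR : 1 ≤ 1 / η := by rw [le_div_iff₀ hη]; linarith
  have h1 : ((((range h).powerset.filter fun T => T.card * e ≤ N).card : ℕ) : ℝ) * η ^ (N / e) ≤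
      (1 + η) ^ h := by
    have h2 : (1 + η) ^ h = ∑ T ∈ (range h).powerset, η ^ T.card := by
      have h3 := prod_one_add (f := fun _ : ℕ => η) (range h)
      simp only [prod_const, card_range] at h3
      exact h3
    rw [h2, ← nsmul_eq_mul, ← sum_const]
    refine (sum_le_sum fun T hT => ?_).trans
      (sum_le_sum_of_subset_of_nonneg (filter_subset _ _) fun T _ _ => by positivity)
    rw [mem_filter] at hT
    exact pow_le_pow_of_le_one hη.le hη1 ((Nat.le_div_iff_mul_le he).mpr hT.2)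
  have h4 := pow_div_le hR he N
  have h5 : (0 : ℝ) < η ^ (N / e) := by positivity
  have h6 : η ^ (N / e) * (1 / η) ^ (N / e) = 1 := by
    rw [← mul_pow, mul_one_div_cancel hη.ne', one_pow]
  set c : ℝ := ((((range h).powerset.filter fun T => T.card * e ≤ N).card : ℕ) : ℝ) with hc
  have hc0 : 0 ≤ c := by rw [hc]; positivity
  calc c = c * η ^ (N / e) * (1 / η) ^ (N / e) := by rw [mul_assoc, h6, mul_one]
    _ ≤ (1 + η) ^ h * (1 + (1 / η - 1) / e) ^ N := by
        refine mul_le_mul h1 h4 (by positivity) (by positivity)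

end Pool.Agent.C4U
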