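import Pool.Agent.Lib.MP_f302e8_u83.Big

/-!
# Words with a dense top letter
-/

set_option autoImplicit false

namespace Pool.Agent.C4U

open Finset Pool.C4

/-- every `κ` consecutive letters contain a `q`, and so do the first `r + 1` letters -/
def OkRun (κ q n r : ℕ) (w : Fin n → ℕ) : Prop :=
  (∀ a : ℕ, a + κ ≤ n → ∃ i : Fin n, a ≤ (i : ℕ) ∧ (i : ℕ) < a + κ ∧ w i = q) ∧
  (r + 1 ≤ n → ∃ i : Fin n, (i : ℕ) < r + 1 ∧ w i = q)

open Classical in
noncomputable def runs (κ q n r : ℕ) : Finset (Fin n → ℕ) :=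
  (Fintype.piFinset (fun _ : Fin n => Icc 1 q)).filter (fun w => OkRun κ q n r w)

noncomputable def R (κ : ℕ) (x : ℝ) (q n r : ℕ) : ℝ := ∑ w ∈ runs κ q n r, ∏ i, x ^ (w i)

theorem runs_mem {κ q n r : ℕ} {w : Fin n → ℕ} :
    w ∈ runs κ q n r ↔ (∀ i, w i ∈ Icc 1 q) ∧ OkRun κ q n r w := by
  simp only [runs, mem_filter, Fintype.mem_piFinset]

theorem R_nonneg {κ : ℕ} {x : ℝ} (hx : 0 ≤ x) (q n r : ℕ) : 0 ≤ R κ x q n r :=
  sum_nonneg fun _ _ => prod_nonneg fun _ _ => pow_nonneg hx _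

theorem R_zero {κ : ℕ} {x : ℝ} (q r : ℕ) : R κ x q 0 r ≤ 1 := by
  classical
  unfold R
  have h1 : (runs κ q 0 r).card ≤ 1 := card_le_one.mpr fun a _ b _ => Subsingleton.elim a b
  calc ∑ w ∈ runs κ q 0 r, ∏ i, x ^ (w i) = ∑ w ∈ runs κ q 0 r, (1 : ℝ) :=
        sum_congr rfl fun w _ => by simp
    _ = ((runs κ q 0 r).card : ℝ) := by simp
    _ ≤ 1 := by exact_mod_cast h1

theorem R_succ {κ : ℕ} (hκ : 1 ≤ κ) {x : ℝ} (hx : 0 ≤ x) (q n r : ℕ) :
    R κ x q (n + 1) r ≤ x ^ q * R κ x q n (κ - 1) +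
      (if r = 0 then 0 else (∑ k ∈ Icc 1 (q - 1), x ^ k) * R κ x q n (r - 1)) := by
  classical
  set Φ : (Fin (n + 1) → ℕ) → ℕ × (Fin n → ℕ) := fun w => (w 0, Fin.tail w) with hΦ
  have hinj : Function.Injective Φ := by
    intro w w' h
    simp only [hΦ, Prod.mk.injEq] at h
    rw [← Fin.cons_self_tail w, ← Fin.cons_self_tail w', h.1, h.2]
  set F : ℕ × (Fin n → ℕ) → ℝ := fun p => x ^ p.1 * ∏ i, x ^ (p.2 i) with hF
  have hFn : ∀ p, 0 ≤ F p := fun p =>
    mul_nonneg (pow_nonneg hx _) (prod_nonneg fun _ _ => pow_nonneg hx _)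
  set S1 : Finset (ℕ × (Fin n → ℕ)) := {q} ×ˢ runs κ q n (κ - 1) with hS1
  set S2 : Finset (ℕ × (Fin n → ℕ)) :=
    if r = 0 then ∅ else Icc 1 (q - 1) ×ˢ runs κ q n (r - 1) with hS2
  have hsub : (runs κ q (n + 1) r).image Φ ⊆ S1 ∪ S2 := by
    intro p hp
    rw [mem_image] at hp
    obtain ⟨w, hw, rfl⟩ := hp
    rw [runs_mem] at hw
    obtain ⟨hw1, hw2, hw3⟩ := hw
    have tail1 : ∀ i, Fin.tail w i ∈ Icc 1 q := fun i => hw1 _
    have tail2 : ∀ a : ℕ, a + κ ≤ n → ∃ i : Fin n, a ≤ (i : ℕ) ∧ (i : ℕ) < a + κ ∧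
        Fin.tail w i = q := by
      intro a ha
      obtain ⟨i, h1, h2, h3⟩ := hw2 (a + 1) (by omega)
      have hi0 : i ≠ 0 := by
        intro h
        rw [h] at h1
        simp at h1
      obtain ⟨j, rfl⟩ := Fin.exists_succ_eq.mpr hi0
      rw [Fin.val_succ] at h1 h2
      exact ⟨j, by omega, by omega, h3⟩
    rw [mem_union]
    by_cases h0 : w 0 = q
    · left
      rw [hS1, mem_product, mem_singleton, runs_mem]
      refine ⟨h0, tail1, tail2, fun hn => ?_⟩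
      obtain ⟨i, h1, h2, h3⟩ := tail2 0 (by omega)
      exact ⟨i, by omega, h3⟩
    · right
      have hr : r ≠ 0 := by
        rintro rfl
        obtain ⟨i, h1, h2⟩ := hw3 (by omega)
        have : i = 0 := by
          apply Fin.ext
          simp only [Fin.val_zero]
          omega
        rw [this] at h2
        exact h0 h2
      rw [hS2, if_neg hr, mem_product, runs_mem, mem_Icc]
      have hw0 := hw1 0
      rw [mem_Icc] at hw0
      refine ⟨⟨hw0.1, ?_⟩, tail1, tail2, fun hn => ?_⟩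
      · simp only [hΦ]
        omega
      · obtain ⟨i, h1, h2⟩ := hw3 (by omega)
        have hi0 : i ≠ 0 := by
          rintro rfl
          exact h0 h2
        obtain ⟨j, rfl⟩ := Fin.exists_succ_eq.mpr hi0
        rw [Fin.val_succ] at h1
        exact ⟨j, by omega, h2⟩
  have e1 : R κ x q (n + 1) r = ∑ p ∈ (runs κ q (n + 1) r).image Φ, F p := by
    unfold R
    rw [sum_image fun a _ b _ h => hinj h]
    refine sum_congr rfl fun w _ => ?_
    simp only [hF, hΦ]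
    rw [Fin.prod_univ_succ]
    rfl
  have e2 : ∑ p ∈ S1, F p = x ^ q * R κ x q n (κ - 1) := by
    rw [hS1, sum_product]
    simp only [sum_singleton, hF]
    rw [← mul_sum]
    rfl
  have e3 : ∑ p ∈ S2, F p =
      (if r = 0 then 0 else (∑ k ∈ Icc 1 (q - 1), x ^ k) * R κ x q n (r - 1)) := by
    rw [hS2]
    split_ifs
    · simp
    · rw [sum_product, sum_mul]
      refine sum_congr rfl fun k _ => ?_
      simp only [hF]
      rw [← mul_sum]
      rfl
  rw [e1, ← e2, ← e3]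
  refine (sum_le_sum_of_subset_of_nonneg hsub fun p _ _ => hFn p).trans ?_
  have h1 := sum_union_inter (s₁ := S1) (s₂ := S2) (f := F)
  have h2 : 0 ≤ ∑ b ∈ S1 ∩ S2, F b := sum_nonneg fun b _ => hFn b
  linarith

theorem R_sum {κ : ℕ} (hκ : 1 ≤ κ) {x : ℝ} (hx : 0 ≤ x) (q N : ℕ) (r : ℕ) :
    ∑ n ∈ range N, R κ x q n r ≤
      (1 + x ^ q * ∑ n ∈ range N, R κ x q n (κ - 1)) *
        ∑ j ∈ range (r + 1), (∑ k ∈ Icc 1 (q - 1), x ^ k) ^ j := by
  set u : ℝ := ∑ k ∈ Icc 1 (q - 1), x ^ k with hu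
  have hu0 : 0 ≤ u := sum_nonneg fun k _ => pow_nonneg hx k
  set A : ℝ := ∑ n ∈ range N, R κ x q n (κ - 1) with hA
  have key : ∀ r, ∑ n ∈ range N, R κ x q n r ≤ 1 + x ^ q * A +
      (if r = 0 then 0 else u * ∑ n ∈ range N, R κ x q n (r - 1)) := by
    intro r
    calc ∑ n ∈ range N, R κ x q n r ≤ ∑ n ∈ range (N + 1), R κ x q n r :=
          sum_le_sum_of_subset_of_nonneg (by intro n hn; rw [mem_range] at *; omega)
            fun n _ _ => R_nonneg hx q n r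
      _ = (∑ n ∈ range N, R κ x q (n + 1) r) + R κ x q 0 r := sum_range_succ' _ _
      _ ≤ (∑ n ∈ range N, (x ^ q * R κ x q n (κ - 1) +
            (if r = 0 then 0 else u * R κ x q n (r - 1)))) + 1 :=
          add_le_add (sum_le_sum fun n _ => R_succ hκ hx q n r) (R_zero q r)
      _ = _ := by
          rw [sum_add_distrib, ← mul_sum]
          split_ifs
          · simp only [sum_const_zero]
            rw [hA]; ring
          · rw [← mul_sum, hA]; ring
  induction r with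
  | zero =>
    have h := key 0
    simp only [if_true] at h
    simpa using h
  | succ r ih =>
    have h := key (r + 1)
    rw [if_neg (Nat.succ_ne_zero r), Nat.add_sub_cancel] at h
    rw [sum_range_succ']
    have h1 : ∑ k ∈ range (r + 1), u ^ (k + 1) = u * ∑ k ∈ range (r + 1), u ^ k := by
      rw [mul_sum]
      exact sum_congr rfl fun k _ => by rw [pow_succ]; ring
    rw [h1, pow_zero]
    have h2 := mul_le_mul_of_nonneg_left ih hu0
    nlinarith

theorem dens {κ : ℕ} (hκ : 1 ≤ κ) {x : ℝ} (hx : 0 ≤ x) (q : ℕ) (C : Finset ℕ) (N : ℕ)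
    {r₀ s₀ : ℝ} (hr₀ : r₀ < 1)
    (h1 : x ^ q * ∑ j ∈ range κ, (∑ k ∈ Icc 1 (q - 1), x ^ k) ^ j ≤ r₀)
    (h2 : ∑ j ∈ range κ, (∑ k ∈ Icc 1 (q - 1), x ^ k) ^ j ≤ s₀) :
    ∑ n ∈ range N, W κ x C q n ≤ s₀ / (1 - r₀) := by
  set σ : ℝ := ∑ j ∈ range κ, (∑ k ∈ Icc 1 (q - 1), x ^ k) ^ j with hσ
  have hle : ∑ n ∈ range N, W κ x C q n ≤ ∑ n ∈ range N, R κ x q n (κ - 1) := by
    refine sum_le_sum fun n _ => ?_
    unfold W R
    have hsub : words κ C q n ⊆ runs κ q n (κ - 1) := by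
      intro w hw
      have hw' := words_mem hw
      rw [runs_mem]
      refine ⟨hw'.1, hw'.2.2, fun hn => ?_⟩
      obtain ⟨i, _, h4, h5⟩ := hw'.2.2 0 (by omega)
      exact ⟨i, by omega, h5⟩
    calc ∑ w ∈ words κ C q n, x ^ (∑ i, w i) = ∑ w ∈ words κ C q n, ∏ i, x ^ (w i) :=
          sum_congr rfl fun w _ => (prod_pow_eq_pow_sum _ _ _).symm
      _ ≤ _ := sum_le_sum_of_subset_of_nonneg hsub fun w _ _ =>
          prod_nonneg fun _ _ => pow_nonneg hx _
  refine hle.trans ?_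
  have h3 := R_sum hκ hx q N (κ - 1)
  have h4 : κ - 1 + 1 = κ := by omega
  rw [h4, ← hσ] at h3
  set A : ℝ := ∑ n ∈ range N, R κ x q n (κ - 1) with hA
  have hA0 : 0 ≤ A := sum_nonneg fun n _ => R_nonneg hx q n _
  have h5 : A * (1 - r₀) ≤ s₀ := by nlinarith
  rw [le_div_iff₀ (by linarith)]
  exact h5

end Pool.Agent.C4U
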