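import Mathlib

/-!
# Fingerprints for sums of finite sets of natural numbers
-/

set_option autoImplicit false

namespace Pool.Agent.C4U

open Finset
open scoped Pointwise

/-- greedy fingerprint -/
theorem fingerprint (C : Finset ℕ) (e : ℕ) (he : 0 < e) (X : Finset ℕ) :
    ∃ T ⊆ X, T.card * e ≤ (T + C).card ∧
      ∀ u ∈ X, (C.filter fun c => u + c ∉ T + C).card < e := by
  classical
  set F := X.powerset.filter fun T => T.card * e ≤ (T + C).card with hF
  have hne : F.Nonempty := ⟨∅, by simp [hF]⟩
  obtain ⟨T, hT, hmax⟩ := exists_max_image F Finset.card hne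
  rw [hF, mem_filter, mem_powerset] at hT
  refine ⟨T, hT.1, hT.2, fun u hu => ?_⟩
  by_contra hlt
  push Not at hlt
  have huT : u ∉ T := by
    intro h
    have h0 : (C.filter fun c => u + c ∉ T + C) = ∅ := by
      rw [filter_eq_empty_iff]
      intro c hc hn
      exact hn (add_mem_add h hc)
    rw [h0, card_empty] at hlt
    omega
  have h1 : insert u T ∈ F := by
    rw [hF, mem_filter, mem_powerset]
    refine ⟨insert_subset hu hT.1, ?_⟩
    rw [card_insert_of_notMem huT]
    have h2 : (T + C) ∪ (C.filter fun c => u + c ∉ T + C).image (fun c => u + c) ⊆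
        insert u T + C := by
      intro z hz
      rw [mem_union] at hz
      rcases hz with hz | hz
      · exact add_subset_add_right (subset_insert u T) hz
      · rw [mem_image] at hz
        obtain ⟨c, hc, rfl⟩ := hz
        exact add_mem_add (mem_insert_self u T) (mem_filter.mp hc).1
    have h3 : Disjoint (T + C) ((C.filter fun c => u + c ∉ T + C).image (fun c => u + c)) := by
      rw [disjoint_left]
      intro z hz hz'
      rw [mem_image] at hz'
      obtain ⟨c, hc, rfl⟩ := hz'
      exact (mem_filter.mp hc).2 hz
    have h4 := card_le_card h2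
    rw [card_union_of_disjoint h3, card_image_of_injective _ (add_right_injective u)] at h4
    have h5 := hT.2
    nlinarith
  have h6 := hmax _ h1
  rw [card_insert_of_notMem huT] at h6
  omega

/-- double counting -/
theorem doubleCount (C V U : Finset ℕ) (e : ℕ)
    (hU : ∀ u ∈ U, (C.filter fun c => u + c ∉ V).card < e) :
    U.card * (C.card - e) ≤ V.card * C.card := by
  classical
  have h1 : ∀ u ∈ U, C.card - e ≤ (C.filter fun c => u + c ∈ V).card := by
    intro u hu
    have h2 := card_filter_add_card_filter_not (s := C) (fun c => u + c ∈ V)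
    have h3 := hU u hu
    omega
  calc U.card * (C.card - e) = ∑ _u ∈ U, (C.card - e) := by rw [sum_const, smul_eq_mul]
    _ ≤ ∑ u ∈ U, (C.filter fun c => u + c ∈ V).card := sum_le_sum h1
    _ = (U.sigma fun u => C.filter fun c => u + c ∈ V).card := by rw [card_sigma]
    _ ≤ (V ×ˢ C).card := by
        refine card_le_card_of_injOn (fun p => (p.1 + p.2, p.2)) ?_ ?_
        · rintro ⟨u, c⟩ hp
          simp only [coe_sigma, Set.mem_sigma_iff, mem_coe, mem_filter] at hp
          simp only [coe_product, Set.mem_prod, mem_coe]
          exact ⟨hp.2.2, hp.2.1⟩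
        · rintro ⟨u, c⟩ _ ⟨u', c'⟩ _ h
          simp only [Prod.mk.injEq] at h
          obtain ⟨h1, h2⟩ := h
          subst h2
          have : u = u' := by omega
          subst this
          rfl
    _ = V.card * C.card := card_product _ _

end Pool.Agent.C4U
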