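import Pool.Agent.Lib.MP_f302e8_u83.Dens

/-!
# The word bound
-/

set_option autoImplicit false

namespace Pool.Agent.C4U

open Finset Pool.C4

theorem wordBound_const {κ : ℕ} {x : ℝ} (hx : 0 < x) (hx1 : x < 1) (D : ℕ) (K : ℝ) (hK : 0 ≤ K)
    (h : ∀ C ⊆ range (κ * D), D ≤ C.card → ∀ q, 1 ≤ q → ∀ N,
      ∑ n ∈ range N, W κ x C q n ≤ K) : WordBound κ x := by
  refine ⟨D, fun _ => K, fun _ => hK, ?_, fun C hC hD _ q hq N => h C hC hD q hq N⟩
  have h1 : Summable fun q : ℕ => x ^ q := summable_geometric_of_lt_one hx.le hx1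
  have h2 : Summable fun q : ℕ => x ^ q * (x ^ 2 * K * K) := h1.mul_right _
  refine h2.congr fun q => ?_
  rw [pow_add]
  ring

/-- the root for `κ + 1` -/
theorem exists_root {κ : ℕ} (hκ : 4 ≤ κ) : ∃ y : ℝ, 0 < y ∧ y < 6369 / 10000 ∧
    ∑ d ∈ Icc 2 (κ + 2), y ^ d = 1 := by
  have hcont : ContinuousOn (fun y : ℝ => ∑ d ∈ Icc 2 (κ + 2), y ^ d)
      (Set.Icc 0 (6369 / 10000)) := by fun_prop
  have h0 : ∑ d ∈ Icc 2 (κ + 2), (0 : ℝ) ^ d = 0 := by
    refine sum_eq_zero fun d hd => ?_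
    rw [mem_Icc] at hd
    exact zero_pow (by omega)
  have h1 : 1 < ∑ d ∈ Icc 2 (κ + 2), (6369 / 10000 : ℝ) ^ d := by
    have h2 : ∑ d ∈ Icc 2 6, (6369 / 10000 : ℝ) ^ d ≤
        ∑ d ∈ Icc 2 (κ + 2), (6369 / 10000 : ℝ) ^ d := by
      refine sum_le_sum_of_subset_of_nonneg ?_ fun d _ _ => by positivity
      intro d hd
      rw [mem_Icc] at *
      omega
    have h3 : Icc 2 6 = ({2, 3, 4, 5, 6} : Finset ℕ) := by decide
    rw [h3] at h2
    refine lt_of_lt_of_le ?_ h2
    norm_num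
  have hmem : (1 : ℝ) ∈ Set.Icc (∑ d ∈ Icc 2 (κ + 2), (0 : ℝ) ^ d)
      (∑ d ∈ Icc 2 (κ + 2), (6369 / 10000 : ℝ) ^ d) := by
    rw [h0]
    exact ⟨zero_le_one, h1.le⟩
  obtain ⟨y, hy, hy1⟩ := intermediate_value_Icc (by norm_num) hcont hmem
  refine ⟨y, ?_, ?_, hy1⟩
  · rcases hy.1.lt_or_eq with h | h
    · exact h
    · exfalso
      simp only at hy1
      rw [← h, h0] at hy1
      norm_num at hy1
  · rcases hy.2.lt_or_eq with h | h
    · exact h
    · exfalso
      simp only at hy1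
      rw [h] at hy1
      linarith

theorem sum_deriv_le {x : ℝ} (hx : 0 ≤ x) (hx1 : x < 1) (k : ℕ) :
    ∑ d ∈ range k, (d : ℝ) * x ^ (d - 1) ≤ 1 / (1 - x) ^ 2 := by
  have h0 : (0 : ℝ) < 1 - x := by linarith
  have key : ∀ k : ℕ, ∑ d ∈ range k, (d : ℝ) * x ^ (d - 1) ≤
      (1 - x ^ (k - 1) * (1 + (k - 1 : ℕ) * (1 - x))) / (1 - x) ^ 2 := by
    intro k
    induction k with
    | zero => simp
    | succ k ih =>
      rw [sum_range_succ]
      rw [le_div_iff₀ (by positivity)] at ih ⊢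
      rcases k with _ | k
      · simp
      · rw [add_mul]
        simp only [Nat.add_sub_cancel] at ih ⊢
        have e1 : ((k + 1 : ℕ) : ℝ) = k + 1 := by push_cast; ring
        rw [e1]
        have e2 : 1 - x ^ k * (1 + k * (1 - x)) + ((k : ℝ) + 1) * x ^ k * (1 - x) ^ 2 =
            1 - x ^ (k + 1) * (1 + ((k : ℝ) + 1) * (1 - x)) := by ring
        linarith
  refine (key k).trans ?_
  rw [div_le_div_iff_of_pos_right (by positivity)]
  have : 0 ≤ x ^ (k - 1) * (1 + ((k - 1 : ℕ) : ℝ) * (1 - x)) := by positivity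
  linarith

theorem pow_sub_le {x y : ℝ} (hy : 0 ≤ y) (hxy : y ≤ x) (d : ℕ) :
    x ^ d - y ^ d ≤ (x - y) * (d * x ^ (d - 1)) := by
  have hx : 0 ≤ x := hy.trans hxy
  induction d with
  | zero => simp
  | succ d ih =>
    rcases d with _ | d
    · simp
    · simp only [Nat.add_sub_cancel] at ih ⊢
      have h1 : x ^ (d + 1 + 1) - y ^ (d + 1 + 1) =
          x * (x ^ (d + 1) - y ^ (d + 1)) + (x - y) * y ^ (d + 1) := by ring
      have h2 : x * (x ^ (d + 1) - y ^ (d + 1)) ≤ x * ((x - y) * ((d + 1 : ℕ) * x ^ d)) :=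
        mul_le_mul_of_nonneg_left ih hx
      have h3 : (x - y) * y ^ (d + 1) ≤ (x - y) * x ^ (d + 1) :=
        mul_le_mul_of_nonneg_left (pow_le_pow_left₀ hy hxy _) (by linarith)
      rw [h1]
      refine (add_le_add h2 h3).trans (le_of_eq ?_)
      push_cast
      ring

/-- Uniform word bound for `κ ≥ 4`. -/
theorem uni : ∃ (D : ℕ) (B : ℝ), 0 < D ∧ 1 ≤ B ∧ ∀ κ : ℕ, 4 ≤ κ → ∃ y : ℝ, 0 < y ∧
    y < 6369 / 10000 ∧ 1 < y ^ 2 + y ∧ ∑ d ∈ Icc 2 (κ + 2), y ^ d = 1 ∧
    y + y ^ (κ + 2) / 1000 ≤ 637 / 1000 ∧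
    ∀ C ⊆ range (κ * D), D ≤ C.card → ∀ q, 1 ≤ q → ∀ N,
      ∑ n ∈ range N, W κ (y + y ^ (κ + 2) / 1000) C q n ≤ B ^ (κ + 1) := by
  obtain ⟨D, B, hB, hbig⟩ := big_words_sum
  refine ⟨D + 1, 3 * (B ^ (D + 1) + 27), by omega, ?_, ?_⟩
  · have : 0 ≤ B ^ (D + 1) := by positivity
    linarith
  · intro κ hκ
    obtain ⟨y, hy0, hy1, hy⟩ := exists_root hκ
    have hy2 : 1 < y ^ 2 + y := by
      have h1 : ∑ d ∈ Icc 2 (κ + 2), y ^ d < y ^ 2 / (1 - y) := by
        have h2 : ∑ d ∈ Icc 2 (κ + 2), y ^ d < ∑ d ∈ Icc 2 (κ + 3), y ^ d := by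
          refine sum_lt_sum_of_subset (i := κ + 3) ?_ ?_ ?_ (by positivity)
            fun d _ _ => by positivity
          · intro d hd
            rw [mem_Icc] at *
            omega
          · rw [mem_Icc]; omega
          · rw [mem_Icc]; omega
        exact h2.trans_le (geo_Icc hy0.le (by linarith) 2 (κ + 3))
      rw [hy, lt_div_iff₀ (by linarith)] at h1
      linarith
    set x : ℝ := y + y ^ (κ + 2) / 1000 with hx
    have hyp : 0 < y ^ (κ + 2) := by positivity
    have hxy : y ≤ x := by rw [hx]; linarith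
    have hx0 : 0 < x := by linarith
    have hx1 : x ≤ 637 / 1000 := by
      have h1 : y ^ (κ + 2) ≤ (6369 / 10000 : ℝ) ^ 6 := by
        calc y ^ (κ + 2) ≤ y ^ 6 :=
              pow_le_pow_of_le_one hy0.le (by linarith) (by omega)
          _ ≤ _ := pow_le_pow_left₀ hy0.le hy1.le 6
      have h2 : (6369 / 10000 : ℝ) ^ 6 < 1 / 10 := by norm_num
      rw [hx]
      linarith
    refine ⟨y, hy0, hy1, hy2, hy, hx1, ?_⟩
    -- the critical polynomial of `κ` at `x`
    have hcrit : ∑ d ∈ Icc 2 (κ + 1), x ^ d ≤ 1 - y ^ (κ + 2) / 2 := by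
      have h1 : ∑ d ∈ Icc 2 (κ + 1), y ^ d = 1 - y ^ (κ + 2) := by
        rw [← hy]
        have h2 : Icc 2 (κ + 2) = insert (κ + 2) (Icc 2 (κ + 1)) := by
          ext d
          rw [mem_insert, mem_Icc, mem_Icc]
          omega
        rw [h2, sum_insert (by rw [mem_Icc]; omega)]
        ring
      have h3 : ∑ d ∈ Icc 2 (κ + 1), x ^ d - ∑ d ∈ Icc 2 (κ + 1), y ^ d ≤
          (x - y) * (1 / (1 - x) ^ 2) := by
        rw [← sum_sub_distrib]
        calc ∑ d ∈ Icc 2 (κ + 1), (x ^ d - y ^ d)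
            ≤ ∑ d ∈ Icc 2 (κ + 1), (x - y) * (d * x ^ (d - 1)) :=
              sum_le_sum fun d _ => pow_sub_le hy0.le hxy d
          _ = (x - y) * ∑ d ∈ Icc 2 (κ + 1), (d : ℝ) * x ^ (d - 1) := by rw [mul_sum]
          _ ≤ (x - y) * ∑ d ∈ range (κ + 2), (d : ℝ) * x ^ (d - 1) := by
              refine mul_le_mul_of_nonneg_left ?_ (by linarith)
              refine sum_le_sum_of_subset_of_nonneg ?_ fun d _ _ => by positivity
              intro d hd
              rw [mem_Icc] at hd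
              rw [mem_range]
              omega
          _ ≤ (x - y) * (1 / (1 - x) ^ 2) :=
              mul_le_mul_of_nonneg_left (sum_deriv_le hx0.le (by linarith) _) (by linarith)
      have h4 : 1 / (1 - x) ^ 2 ≤ 500 := by
        rw [div_le_iff₀ (by nlinarith)]
        nlinarith
      have h5 : (x - y) * (1 / (1 - x) ^ 2) ≤ (x - y) * 500 :=
        mul_le_mul_of_nonneg_left h4 (by linarith)
      have h6 : (x - y) * 500 = y ^ (κ + 2) / 2 := by rw [hx]; ring
      linarith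
    have hκ1 : 1 ≤ κ + 1 := by omega
    set E : ℝ := B ^ (D + 1) + 27 with hE
    have hE1 : 1 ≤ E := by
      have : 0 ≤ B ^ (D + 1) := by positivity
      linarith
    have hEp : (E : ℝ) ^ (κ + 1) ≤ (3 * E) ^ (κ + 1) :=
      pow_le_pow_left₀ (by linarith) (by linarith) _
    intro C hC hCD q hq N
    rcases Nat.lt_or_ge q 3 with hq3 | hq3
    · have hq' : q = 1 ∨ q = 2 := by omega
      rcases hq' with rfl | rfl
      · -- one letter
        have h1 := dens (κ := κ) (by omega) hx0.le 1 C N (r₀ := 637 / 1000) (s₀ := 1)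
          (by norm_num) (by
            have e1 : ∑ j ∈ range κ, (∑ k ∈ Icc 1 (1 - 1), x ^ k) ^ j = 1 := by
              have e2 : Icc 1 (1 - 1) = (∅ : Finset ℕ) := by decide
              rw [e2, sum_empty]
              obtain ⟨k, rfl⟩ : ∃ k, κ = k + 1 := ⟨κ - 1, by omega⟩
              rw [sum_range_succ']
              simp
            rw [e1, pow_one, mul_one]
            exact hx1) (by
            have e2 : Icc 1 (1 - 1) = (∅ : Finset ℕ) := by decide
            rw [e2, sum_empty]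
            obtain ⟨k, rfl⟩ : ∃ k, κ = k + 1 := ⟨κ - 1, by omega⟩
            rw [sum_range_succ']
            simp)
        refine h1.trans ?_
        have h2 : (1 : ℝ) / (1 - 637 / 1000) ≤ 3 := by norm_num
        have h3 : (3 : ℝ) ≤ (3 * E) ^ (κ + 1) := by
          calc (3 : ℝ) ≤ 3 * E := by linarith
            _ = (3 * E) ^ 1 := (pow_one _).symm
            _ ≤ _ := pow_le_pow_right₀ (by linarith) hκ1
        linarith
      · -- two letters
        have e1 : ∑ j ∈ range κ, (∑ k ∈ Icc 1 (2 - 1), x ^ k) ^ j = ∑ j ∈ range κ, x ^ j := by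
          have e2 : Icc 1 (2 - 1) = ({1} : Finset ℕ) := by decide
          rw [e2, sum_singleton, pow_one]
        have e3 : x ^ 2 * ∑ j ∈ range κ, x ^ j = ∑ d ∈ Icc 2 (κ + 1), x ^ d := by
          rw [mul_sum]
          have e4 : Icc 2 (κ + 1) = (range κ).image (fun j => 2 + j) := by
            ext d
            rw [mem_Icc, mem_image]
            constructor
            · intro hd
              exact ⟨d - 2, by rw [mem_range]; omega, by omega⟩
            · rintro ⟨j, hj, rfl⟩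
              rw [mem_range] at hj
              omega
          rw [e4, sum_image (fun a _ b _ h => by omega)]
          exact sum_congr rfl fun j _ => by rw [pow_add]
        have h1 := dens (κ := κ) (by omega) hx0.le 2 C N (r₀ := 1 - y ^ (κ + 2) / 2) (s₀ := 3)
          (by linarith) (by rw [e1, e3]; exact hcrit) (by
            rw [e1]
            have h2 := geo_Icc hx0.le (by linarith) 0 (κ - 1)
            have h3 : Icc 0 (κ - 1) = range κ := by
              ext d
              rw [mem_Icc, mem_range]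
              omega
            rw [h3, pow_zero] at h2
            refine h2.trans ?_
            rw [div_le_iff₀ (by linarith)]
            linarith)
        refine h1.trans ?_
        have h2 : (3 : ℝ) / (1 - (1 - y ^ (κ + 2) / 2)) = 6 * (1 / y) ^ (κ + 2) := by
          rw [one_div, inv_pow]
          field_simp
          ring
        rw [h2]
        have h3 : 1 / y ≤ 2 := by
          rw [div_le_iff₀ hy0]
          nlinarith
        have h4 : (1 / y) ^ (κ + 2) ≤ 2 ^ (κ + 2) := pow_le_pow_left₀ (by positivity) h3 _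
        calc 6 * (1 / y) ^ (κ + 2) ≤ 6 * 2 ^ (κ + 2) := by linarith
          _ = 12 * 2 ^ (κ + 1) := by rw [pow_succ]; ring
          _ ≤ 12 ^ (κ + 1) * 2 ^ (κ + 1) := by
              refine mul_le_mul_of_nonneg_right ?_ (by positivity)
              calc (12 : ℝ) = 12 ^ 1 := (pow_one _).symm
                _ ≤ _ := pow_le_pow_right₀ (by norm_num) hκ1
          _ = 24 ^ (κ + 1) := by rw [← mul_pow]; norm_num
          _ ≤ E ^ (κ + 1) := pow_le_pow_left₀ (by norm_num) (by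
              have : 0 ≤ B ^ (D + 1) := by positivity
              linarith) _
          _ ≤ _ := hEp
    · have h1 := hbig κ q N (κ * (D + 1)) C hq3 (by positivity) hC (by omega) x hx0.le hx1
      refine h1.trans ?_
      have hB0 : 0 < B := by linarith
      calc B ^ (κ * (D + 1)) = (B ^ (D + 1)) ^ κ := by rw [mul_comm, pow_mul]
        _ ≤ E ^ κ := pow_le_pow_left₀ (by positivity) (by linarith) _
        _ ≤ E ^ (κ + 1) := pow_le_pow_right₀ hE1 (by omega)
        _ ≤ _ := hEp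

theorem small_two : ∃ K : ℝ, 0 ≤ K ∧ ∀ (C : Finset ℕ) (q : ℕ), 1 ≤ q → ∀ N,
    ∑ n ∈ range N, W 2 (69 / 100) C q n ≤ K := by
  refine ⟨(1 + 69 / 31) / (1 - 81 / 100), by norm_num, fun C q hq N => ?_⟩
  have hx : (0 : ℝ) ≤ 69 / 100 := by norm_num
  have hu : ∑ k ∈ Icc 1 (q - 1), (69 / 100 : ℝ) ^ k ≤ 69 / 31 :=
    (geo_Icc hx (by norm_num) 1 (q - 1)).trans (by norm_num)
  have e0 : ∀ u : ℝ, ∑ j ∈ range 2, u ^ j = 1 + u := by
    intro u
    rw [sum_range_succ, sum_range_succ, sum_range_zero]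
    ring
  refine dens (κ := 2) (by norm_num) hx q C N (by norm_num) ?_ ?_
  · rw [e0]
    rcases Nat.lt_or_ge q 4 with h | h
    · have hq' : q = 1 ∨ q = 2 ∨ q = 3 := by omega
      rcases hq' with rfl | rfl | rfl
      · have e2 : Icc 1 (1 - 1) = (∅ : Finset ℕ) := by decide
        rw [e2]; norm_num
      · have e2 : Icc 1 (2 - 1) = ({1} : Finset ℕ) := by decide
        rw [e2]; norm_num
      · have e2 : Icc 1 (3 - 1) = ({1, 2} : Finset ℕ) := by decide
        rw [e2]; norm_num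
    · have h1 : (69 / 100 : ℝ) ^ q ≤ (69 / 100) ^ 4 :=
        pow_le_pow_of_le_one hx (by norm_num) h
      have h0 : 0 ≤ ∑ k ∈ Icc 1 (q - 1), (69 / 100 : ℝ) ^ k :=
        sum_nonneg fun k _ => by positivity
      calc (69 / 100 : ℝ) ^ q * (1 + ∑ k ∈ Icc 1 (q - 1), (69 / 100 : ℝ) ^ k)
          ≤ (69 / 100) ^ 4 * (1 + 69 / 31) :=
            mul_le_mul h1 (by linarith) (by linarith) (by positivity)
        _ ≤ 81 / 100 := by norm_num
  · rw [e0]
    linarith

theorem small_three : ∃ K : ℝ, 0 ≤ K ∧ ∀ (C : Finset ℕ) (q : ℕ), 1 ≤ q → ∀ N,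
    ∑ n ∈ range N, W 3 (66 / 100) C q n ≤ K := by
  refine ⟨(1 + 66 / 34 + (66 / 34) ^ 2) / (1 - 95 / 100), by norm_num, fun C q hq N => ?_⟩
  have hx : (0 : ℝ) ≤ 66 / 100 := by norm_num
  have hu : ∑ k ∈ Icc 1 (q - 1), (66 / 100 : ℝ) ^ k ≤ 66 / 34 :=
    (geo_Icc hx (by norm_num) 1 (q - 1)).trans (by norm_num)
  have h0 : 0 ≤ ∑ k ∈ Icc 1 (q - 1), (66 / 100 : ℝ) ^ k :=
    sum_nonneg fun k _ => by positivity
  have e0 : ∀ u : ℝ, ∑ j ∈ range 3, u ^ j = 1 + u + u ^ 2 := by
    intro u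
    rw [sum_range_succ, sum_range_succ, sum_range_succ, sum_range_zero]
    ring
  refine dens (κ := 3) (by norm_num) hx q C N (by norm_num) ?_ ?_
  · rw [e0]
    rcases Nat.lt_or_ge q 5 with h | h
    · have hq' : q = 1 ∨ q = 2 ∨ q = 3 ∨ q = 4 := by omega
      rcases hq' with rfl | rfl | rfl | rfl
      · have e2 : Icc 1 (1 - 1) = (∅ : Finset ℕ) := by decide
        rw [e2]; norm_num
      · have e2 : Icc 1 (2 - 1) = ({1} : Finset ℕ) := by decide
        rw [e2]; norm_num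
      · have e2 : Icc 1 (3 - 1) = ({1, 2} : Finset ℕ) := by decide
        rw [e2]; norm_num
      · have e2 : Icc 1 (4 - 1) = ({1, 2, 3} : Finset ℕ) := by decide
        rw [e2]; norm_num
    · have h1 : (66 / 100 : ℝ) ^ q ≤ (66 / 100) ^ 5 :=
        pow_le_pow_of_le_one hx (by norm_num) h
      have h2 : (∑ k ∈ Icc 1 (q - 1), (66 / 100 : ℝ) ^ k) ^ 2 ≤ (66 / 34) ^ 2 :=
        pow_le_pow_left₀ h0 hu 2
      calc (66 / 100 : ℝ) ^ q * (1 + ∑ k ∈ Icc 1 (q - 1), (66 / 100 : ℝ) ^ k +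
            (∑ k ∈ Icc 1 (q - 1), (66 / 100 : ℝ) ^ k) ^ 2)
          ≤ (66 / 100) ^ 5 * (1 + 66 / 34 + (66 / 34) ^ 2) :=
            mul_le_mul h1 (by linarith) (by positivity) (by positivity)
        _ ≤ 95 / 100 := by norm_num
  · rw [e0]
    have h2 : (∑ k ∈ Icc 1 (q - 1), (66 / 100 : ℝ) ^ k) ^ 2 ≤ (66 / 34) ^ 2 :=
      pow_le_pow_left₀ h0 hu 2
    linarith

theorem wordsGoal : WordsGoal := by
  intro κ hκ
  rcases Nat.lt_or_ge κ 4 with h4 | h4
  · have hκ' : κ = 2 ∨ κ = 3 := by omega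
    rcases hκ' with rfl | rfl
    · refine ⟨69 / 100, by norm_num, by norm_num, ?_, ?_⟩
      · have e : Icc 2 (2 + 2) = ({2, 3, 4} : Finset ℕ) := by decide
        rw [e]; norm_num
      · obtain ⟨K, hK, h⟩ := small_two
        exact wordBound_const (by norm_num) (by norm_num) 1 K hK
          fun C _ _ q hq N => h C q hq N
    · refine ⟨66 / 100, by norm_num, by norm_num, ?_, ?_⟩
      · have e : Icc 2 (3 + 2) = ({2, 3, 4, 5} : Finset ℕ) := by decide
        rw [e]; norm_num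
      · obtain ⟨K, hK, h⟩ := small_three
        exact wordBound_const (by norm_num) (by norm_num) 1 K hK
          fun C _ _ q hq N => h C q hq N
  · obtain ⟨D, B, hD, hB, hU⟩ := uni
    obtain ⟨y, hy0, hy1, hy2, hy3, hy4, hy5⟩ := hU κ h4
    have hyp : 0 < y ^ (κ + 2) := by positivity
    refine ⟨y + y ^ (κ + 2) / 1000, by positivity, by linarith, ?_, ?_⟩
    · rw [← hy3]
      refine sum_lt_sum_of_nonempty ⟨2, by rw [mem_Icc]; omega⟩ fun d hd => ?_
      rw [mem_Icc] at hd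
      exact pow_lt_pow_left₀ (by linarith) hy0.le (by omega)
    · exact wordBound_const (by positivity) (by linarith) D (B ^ (κ + 1)) (by positivity) hy5

end Pool.Agent.C4U
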