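import Pool.Agent.Lib.MP_f302e8_u83.Goal
import Pool.Agent.Lib.MP_f302e8_gs.Defs2

/-!
# The word bounds, final linking statements
-/

set_option autoImplicit false

namespace Pool.Agent.C4U

open Finset Pool.C4

theorem wordsGoal2 : WordsGoal2 := by
  intro κ hκ
  rcases Nat.lt_or_ge κ 4 with h4 | h4
  · have hκ' : κ = 2 ∨ κ = 3 := by omega
    rcases hκ' with rfl | rfl
    · obtain ⟨K, hK, h⟩ := small_two
      refine ⟨69 / 100, 683 / 1000, 1, K, by norm_num, by norm_num, by norm_num, ?_,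
        le_refl 1, fun C _ _ _ q hq N => h C q hq N⟩
      have e : Icc 2 (2 + 2) = ({2, 3, 4} : Finset ℕ) := by decide
      rw [e]; norm_num
    · obtain ⟨K, hK, h⟩ := small_three
      refine ⟨66 / 100, 653 / 1000, 1, K, by norm_num, by norm_num, by norm_num, ?_,
        le_refl 1, fun C _ _ _ q hq N => h C q hq N⟩
      have e : Icc 2 (3 + 2) = ({2, 3, 4, 5} : Finset ℕ) := by decide
      rw [e]; norm_num
  · obtain ⟨D, B, hD, hB, hU⟩ := uni
    obtain ⟨y, hy0, hy1, hy2, hy3, hy4, hy5⟩ := hU κ h4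
    have hyp : 0 < y ^ (κ + 2) := by positivity
    exact ⟨y + y ^ (κ + 2) / 1000, y, D, B ^ (κ + 1), hy0, by linarith, by linarith,
      hy3.ge, hD, fun C hC hCD _ q hq N => hy5 C hC hCD q hq N⟩

theorem uniGoal : UniGoal := by
  obtain ⟨D, B, hD, hB, hU⟩ := uni
  refine ⟨D, B, hD, hB, fun κ hκ => ?_⟩
  obtain ⟨y, hy0, hy1, hy2, hy3, hy4, hy5⟩ := hU κ hκ
  refine ⟨y, ?_, by linarith, hy3.ge, fun C hC hCD _ q hq N => hy5 C hC hCD q hq N⟩
  by_contra hle
  push Not at hle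
  have key : ∀ φ : ℝ, 0 < φ → φ ^ 2 = φ + 1 → y ≤ 1 / φ → False := by
    intro φ hφ hφ2 hle
    have ht0 : 0 < 1 / φ := by positivity
    have ht : (1 / φ) ^ 2 + 1 / φ = 1 := by
      field_simp
      linarith
    nlinarith
  exact key Real.goldenRatio Real.goldenRatio_pos Real.goldenRatio_sq hle

end Pool.Agent.C4U
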