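import Pool.Agent.Lib.MP_f302e8_u83.Box

/-!
# The two-class lemma
-/

set_option autoImplicit false

namespace Pool.Agent.C4U

open Finset
open scoped Pointwise

/-- the upper set of a fingerprint -/
def upp (C : Finset ℕ) (e h : ℕ) (T : Finset ℕ) : Finset ℕ :=
  (range h).filter fun u => (C.filter fun c => u + c ∉ T + C).card < e

/-- the forbidden set of a fingerprint -/
def low (C : Finset ℕ) (h : ℕ) (T : Finset ℕ) : Finset ℕ := (range h).filter fun j => j ∈ T + C

theorem card_add_le {h L : ℕ} {C T : Finset ℕ} (hC : C ⊆ range L) (hT : T ⊆ range h) :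
    (T + C).card ≤ (low C h T).card + L := by
  classical
  have h1 : T + C ⊆ low C h T ∪ Ico h (h + L) := by
    intro z hz
    obtain ⟨t, ht, c, hc, rfl⟩ := mem_add.mp hz
    have h2 := mem_range.mp (hT ht)
    have h3 := mem_range.mp (hC hc)
    rw [mem_union]
    by_cases h4 : t + c < h
    · left
      unfold low
      rw [mem_filter, mem_range]
      exact ⟨h4, hz⟩
    · right
      rw [mem_Ico]
      omega
  have h2 := (card_le_card h1).trans (card_union_le _ _)
  rw [Nat.card_Ico] at h2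
  omega

theorem card_upp_le {h L e p : ℕ} {C T : Finset ℕ} (hC : C ⊆ range L) (hT : T ⊆ range h)
    (he : 0 < e) (hp : 0 < p) (hD : C.card = e * (1 + p)) :
    (upp C e h T).card ≤ (low C h T).card + (L + (h + L) / p) := by
  have h1 := doubleCount C (T + C) (upp C e h T) e (by
    intro u hu
    unfold upp at hu
    exact (mem_filter.mp hu).2)
  have h2 : C.card - e = e * p := by rw [hD]; ring_nf; omega
  rw [h2, hD] at h1
  have h3 : (upp C e h T).card * p ≤ (T + C).card * (1 + p) := by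
    have h4 : e * ((upp C e h T).card * p) ≤ e * ((T + C).card * (1 + p)) := by
      calc e * ((upp C e h T).card * p) = (upp C e h T).card * (e * p) := by ring
        _ ≤ _ := h1
        _ = e * ((T + C).card * (1 + p)) := by ring
    exact Nat.le_of_mul_le_mul_left h4 he
  have h5 : (upp C e h T).card ≤ (T + C).card + (T + C).card / p := by
    by_contra h6
    push Not at h6
    have h7 : (T + C).card / p < (upp C e h T).card - (T + C).card := by omega
    rw [Nat.div_lt_iff_lt_mul hp] at h7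
    rw [Nat.sub_mul] at h7
    have h8 : (T + C).card * (1 + p) = (T + C).card + (T + C).card * p := by ring
    omega
  have h6 := card_add_le hC hT
  have h7 : (T + C).card / p ≤ (h + L) / p := by
    refine Nat.div_le_div_right ?_
    have h8 : (low C h T).card ≤ h := by
      have := card_filter_le (range h) (fun j => j ∈ T + C)
      rw [card_range] at this
      exact this
    omega
  omega

theorem exponents {A A' B B' ρ r : ℝ} (hA' : 0 < A') (hAA : A' ≤ A) (hB' : 0 ≤ B')
    (hB : 0 ≤ B) (h1 : A * B' ≤ ρ) (h2 : A' * B ≤ ρ) (hr : r = A / A')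
    {h u v t : ℕ} (hu : u ≤ h) (hv : v ≤ h) (huv : u ≤ v + t) :
    (A ^ u * A' ^ (h - u)) * (B' ^ v * B ^ (h - v)) ≤ ρ ^ h * r ^ t := by
  have hA0 : 0 < A := hA'.trans_le hAA
  have hr1 : 1 ≤ r := by rw [hr, le_div_iff₀ hA']; linarith
  have hrA : A = A' * r := by rw [hr]; field_simp
  have hρ : 0 ≤ ρ := (mul_nonneg hA0.le hB').trans h1
  have e1 : A ^ u * A' ^ (h - u) = A' ^ h * r ^ u := by
    rw [hrA, mul_pow]
    have : A' ^ h = A' ^ u * A' ^ (h - u) := by rw [← pow_add]; congr 1; omega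
    rw [this]; ring
  have e2 : A' ^ h * r ^ v = A' ^ (h - v) * A ^ v := by
    rw [hrA, mul_pow]
    have : A' ^ h = A' ^ v * A' ^ (h - v) := by rw [← pow_add]; congr 1; omega
    rw [this]; ring
  have e3 : r ^ u ≤ r ^ v * r ^ t := by
    rw [← pow_add]
    exact pow_le_pow_right₀ hr1 huv
  have hnn : 0 ≤ B' ^ v * B ^ (h - v) := by positivity
  calc (A ^ u * A' ^ (h - u)) * (B' ^ v * B ^ (h - v))
      = A' ^ h * r ^ u * (B' ^ v * B ^ (h - v)) := by rw [e1]
    _ ≤ A' ^ h * (r ^ v * r ^ t) * (B' ^ v * B ^ (h - v)) := by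
        refine mul_le_mul_of_nonneg_right ?_ hnn
        exact mul_le_mul_of_nonneg_left e3 (by positivity)
    _ = (A' ^ h * r ^ v) * (B' ^ v * B ^ (h - v)) * r ^ t := by ring
    _ = (A * B') ^ v * (A' * B) ^ (h - v) * r ^ t := by
        rw [e2, mul_pow, mul_pow]; ring
    _ ≤ ρ ^ v * ρ ^ (h - v) * r ^ t := by
        refine mul_le_mul_of_nonneg_right ?_ (by positivity)
        refine mul_le_mul (pow_le_pow_left₀ (mul_nonneg hA0.le hB') h1 _)
          (pow_le_pow_left₀ (mul_nonneg hA'.le hB) h2 _) (by positivity) (by positivity)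
    _ = ρ ^ h * r ^ t := by
        rw [← pow_add]
        congr 2
        omega

/-- The set of words of a fingerprint type lies in the union of the boxes. -/
theorem cover {n q s s' e p L : ℕ} {C : Finset ℕ} (hC : C ⊆ range L) (he : 0 < e) (hp : 0 < p)
    (hD : C.card = e * (1 + p)) (𝒜 : Finset (Fin n → ℕ))
    (hw : ∀ w ∈ 𝒜, ∀ i, w i ∈ Icc 1 q)
    (hrel : ∀ w ∈ 𝒜, ∀ i j : Fin n, ∀ c ∈ C, i.val < n / 2 → i.val + j.val + c + 1 = n →
      w i ≤ s → s' < w j) :
    𝒜 ⊆ ((range (n / 2)).powerset.filter fun T => T.card * e ≤ n / 2 + L).biUnion fun T =>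
      Fintype.piFinset (fun i : Fin n =>
        box n q s s' (upp C e (n / 2) T) (low C (n / 2) T) i.val) := by
  classical
  intro w hwA
  set h := n / 2 with hh
  set X : Finset ℕ := (range h).filter fun i => ∀ hi : i < n, w ⟨i, hi⟩ ≤ s with hX
  obtain ⟨T, hTX, hT1, hT2⟩ := fingerprint C e he X
  have hTh : T ⊆ range h := hTX.trans (filter_subset _ _)
  rw [mem_biUnion]
  refine ⟨T, ?_, ?_⟩
  · rw [mem_filter, mem_powerset]
    refine ⟨hTh, hT1.trans ?_⟩
    have h3 := card_add_le hC hTh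
    have h4 : (low C h T).card ≤ h := by
      have := card_filter_le (range h) (fun j => j ∈ T + C)
      rw [card_range] at this
      exact this
    omega
  · rw [Fintype.mem_piFinset]
    intro i
    have hwi := hw w hwA i
    rw [mem_Icc] at hwi
    unfold box
    rw [← hh]
    split_ifs with c1 c2 c3 c4
    · exact hw w hwA i
    · rw [mem_Icc]
      refine ⟨?_, hwi.2⟩
      by_contra hlt
      apply c2
      have hiX : i.val ∈ X := by
        rw [hX, mem_filter, mem_range]
        refine ⟨c1, fun hi => ?_⟩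
        have : (⟨i.val, hi⟩ : Fin n) = i := rfl
        rw [this]
        omega
      unfold upp
      rw [mem_filter, mem_range]
      exact ⟨c1, hT2 _ hiX⟩
    · rw [mem_Icc]
      refine ⟨?_, hwi.2⟩
      unfold low at c4
      rw [mem_filter, mem_add] at c4
      obtain ⟨_, t, ht, c, hc, htc⟩ := c4
      have htX := hTX ht
      rw [hX, mem_filter, mem_range] at htX
      have htn : t < n := by omega
      have := hrel w hwA ⟨t, htn⟩ i c hc htX.1 (by
        have := i.isLt
        simp only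
        omega) (htX.2 htn)
      omega
    · exact hw w hwA i
    · exact hw w hwA i

theorem sum_biUnion_le_of_nonneg' {α β : Type} [DecidableEq α] [DecidableEq β] {f : β → ℝ}
    (hf : ∀ b, 0 ≤ f b) (S : Finset α) (t : α → Finset β) :
    ∑ b ∈ S.biUnion t, f b ≤ ∑ a ∈ S, ∑ b ∈ t a, f b := by
  induction S using Finset.induction_on with
  | empty => simp
  | insert a S ha ih =>
    rw [biUnion_insert, sum_insert ha]
    have h1 := sum_union_inter (s₁ := t a) (s₂ := S.biUnion t) (f := f)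
    have h2 : 0 ≤ ∑ b ∈ t a ∩ S.biUnion t, f b := sum_nonneg fun b _ => hf b
    linarith

theorem twoClass_fixed {A A' B B' : ℝ} (hA' : 0 < A') (hAA : A' ≤ A) (hB' : 0 ≤ B')
    (hB : 0 ≤ B) {ρ r : ℝ} (h1 : A * B' ≤ ρ) (h2 : A' * B ≤ ρ) (hr : r = A / A')
    {η : ℝ} (hη : 0 < η) (hη1 : η ≤ 1) {n q s s' e p L : ℕ} {C : Finset ℕ} (hC : C ⊆ range L)
    (he : 0 < e) (hp : 0 < p) (hD : C.card = e * (1 + p))
    {f1 f2 f3 : ℕ → ℝ} (k1 : ∀ k, 0 ≤ f1 k) (k2 : ∀ k, 0 ≤ f2 k) (k3 : ∀ k, 0 ≤ f3 k)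
    (gA : ∑ k ∈ Icc 1 q, f1 k ≤ A) (gA' : ∑ k ∈ Icc (s + 1) q, f1 k ≤ A')
    (gB : ∑ k ∈ Icc 1 q, f2 k ≤ B) (gB' : ∑ k ∈ Icc (s' + 1) q, f2 k ≤ B')
    {M : ℝ} (gM : ∑ k ∈ Icc 1 q, f3 k ≤ M) (hM1 : 1 ≤ M)
    (𝒜 : Finset (Fin n → ℕ)) (hw : ∀ w ∈ 𝒜, ∀ i, w i ∈ Icc 1 q)
    (hrel : ∀ w ∈ 𝒜, ∀ i j : Fin n, ∀ c ∈ C, i.val < n / 2 → i.val + j.val + c + 1 = n →
      w i ≤ s → s' < w j) :
    ∑ w ∈ 𝒜, ∏ i : Fin n, wt n f1 f2 f3 i.val (w i) ≤
      M * (r * (1 + (r - 1) / p) * (1 + (1 / η - 1) / e)) ^ L *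
        (ρ * (1 + η) * (1 + (r - 1) / p) * (1 + (1 / η - 1) / e)) ^ (n / 2) := by
  classical
  have hA0 : 0 < A := hA'.trans_le hAA
  have hr1 : 1 ≤ r := by rw [hr, le_div_iff₀ hA']; linarith
  have hρ : 0 ≤ ρ := (mul_nonneg hA0.le hB').trans h1
  set h := n / 2 with hh
  set sp : ℝ := 1 + (r - 1) / p with hsp
  set se : ℝ := 1 + (1 / η - 1) / e with hse
  have hsp0 : 0 ≤ sp := by
    have : 0 ≤ (r - 1) / p := div_nonneg (by linarith) (by positivity)
    linarith
  have hR : 1 ≤ 1 / η := by rw [le_div_iff₀ hη]; linarith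
  have hse0 : 0 ≤ se := by
    have : 0 ≤ (1 / η - 1) / e := div_nonneg (by linarith) (by positivity)
    linarith
  set 𝒯 := (range h).powerset.filter fun T => T.card * e ≤ h + L with h𝒯
  have hcov := cover hC he hp hD 𝒜 hw hrel
  have hnn : ∀ w : Fin n → ℕ, 0 ≤ ∏ i : Fin n, wt n f1 f2 f3 i.val (w i) := fun w =>
    prod_nonneg fun i _ => wt_nonneg k1 k2 k3 _ _
  have hbd : ∀ T ∈ 𝒯, ∑ w ∈ Fintype.piFinset (fun i : Fin n =>
      box n q s s' (upp C e h T) (low C h T) i.val), ∏ i : Fin n, wt n f1 f2 f3 i.val (w i) ≤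
      ρ ^ h * (r ^ L * sp ^ (h + L)) * M := by
    intro T hT
    rw [h𝒯, mem_filter, mem_powerset] at hT
    have b1 := box_sum (n := n) (q := q) (s := s) (s' := s') (U := upp C e h T)
      (V := low C h T) (filter_subset _ _) (filter_subset _ _) k1 k2 k3 gA gA' gB gB' gM hM1
      hA0.le hA'.le hB hB'
    refine b1.trans ?_
    rw [← hh]
    have cu : (upp C e h T).card ≤ h := by
      have := card_le_card (filter_subset (fun u => (C.filter fun c => u + c ∉ T + C).card < e)
        (range h))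
      rw [card_range] at this
      exact this
    have cv : (low C h T).card ≤ h := by
      have := card_le_card (filter_subset (fun j => j ∈ T + C) (range h))
      rw [card_range] at this
      exact this
    have b2 := exponents hA' hAA hB' hB h1 h2 hr cu cv (card_upp_le hC hT.1 he hp hD)
    have b3 : r ^ (L + (h + L) / p) ≤ r ^ L * sp ^ (h + L) := by
      rw [pow_add]
      exact mul_le_mul_of_nonneg_left (pow_div_le hr1 hp (h + L)) (by positivity)
    refine mul_le_mul_of_nonneg_right (b2.trans ?_) (by linarith)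
    exact mul_le_mul_of_nonneg_left b3 (by positivity)
  calc ∑ w ∈ 𝒜, ∏ i : Fin n, wt n f1 f2 f3 i.val (w i)
      ≤ ∑ w ∈ 𝒯.biUnion fun T => Fintype.piFinset (fun i : Fin n =>
          box n q s s' (upp C e h T) (low C h T) i.val),
          ∏ i : Fin n, wt n f1 f2 f3 i.val (w i) :=
        sum_le_sum_of_subset_of_nonneg hcov fun w _ _ => hnn w
    _ ≤ ∑ T ∈ 𝒯, ∑ w ∈ Fintype.piFinset (fun i : Fin n =>
          box n q s s' (upp C e h T) (low C h T) i.val),
          ∏ i : Fin n, wt n f1 f2 f3 i.val (w i) :=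
        sum_biUnion_le_of_nonneg' hnn _ _
    _ ≤ ∑ _T ∈ 𝒯, ρ ^ h * (r ^ L * sp ^ (h + L)) * M := sum_le_sum hbd
    _ = (𝒯.card : ℝ) * (ρ ^ h * (r ^ L * sp ^ (h + L)) * M) := by
        rw [sum_const, nsmul_eq_mul]
    _ ≤ ((1 + η) ^ h * se ^ (h + L)) * (ρ ^ h * (r ^ L * sp ^ (h + L)) * M) := by
        refine mul_le_mul_of_nonneg_right (count_small h (h + L) e he hη hη1) ?_
        have : 0 ≤ M := by linarith
        positivity
    _ = M * (r * sp * se) ^ L * (ρ * (1 + η) * sp * se) ^ h := by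
        rw [pow_add, pow_add]
        simp only [mul_pow]
        ring

end Pool.Agent.C4U
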