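import Pool.Agent.Lib.MP_f302e8_u83.Two

/-!
# The two-class lemma, existence of the parameters
-/

set_option autoImplicit false

namespace Pool.Agent.C4U

open Finset

/-- The conclusion of the two-class lemma for the bounds `A, A', B, B'` with the constants
`D, ρ, K`. -/
def TC (A A' B B' : ℝ) (D : ℕ) (ρ K : ℝ) : Prop :=
  ∀ (n q s s' L : ℕ) (C : Finset ℕ), C ⊆ range L → D ≤ C.card →
  ∀ (f1 f2 f3 : ℕ → ℝ), (∀ k, 0 ≤ f1 k) → (∀ k, 0 ≤ f2 k) → (∀ k, 0 ≤ f3 k) →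
  ∑ k ∈ Icc 1 q, f1 k ≤ A → ∑ k ∈ Icc (s + 1) q, f1 k ≤ A' →
  ∑ k ∈ Icc 1 q, f2 k ≤ B → ∑ k ∈ Icc (s' + 1) q, f2 k ≤ B' →
  ∀ M : ℝ, ∑ k ∈ Icc 1 q, f3 k ≤ M → 1 ≤ M →
  ∀ 𝒜 : Finset (Fin n → ℕ), (∀ w ∈ 𝒜, ∀ i, w i ∈ Icc 1 q) →
  (∀ w ∈ 𝒜, ∀ i j : Fin n, ∀ c ∈ C, i.val < n / 2 → i.val + j.val + c + 1 = n →
      w i ≤ s → s' < w j) →
  ∑ w ∈ 𝒜, ∏ i : Fin n, wt n f1 f2 f3 i.val (w i) ≤ M * K ^ L * ρ ^ (n / 2)

theorem twoClass {A A' B B' : ℝ} (hA' : 0 < A') (hAA : A' ≤ A) (hB' : 0 ≤ B') (hB : 0 ≤ B)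
    (h1 : A * B' < 1) (h2 : A' * B < 1) :
    ∃ (D : ℕ) (ρ K : ℝ), 0 < ρ ∧ ρ < 1 ∧ 1 ≤ K ∧ TC A A' B B' D ρ K := by
  classical
  set ρ₀ : ℝ := max (max (A * B') (A' * B)) (1 / 2) with hρ₀
  have r1 : A * B' ≤ ρ₀ := (le_max_left _ _).trans (le_max_left _ _)
  have r2 : A' * B ≤ ρ₀ := (le_max_right _ _).trans (le_max_left _ _)
  have r3 : 1 / 2 ≤ ρ₀ := le_max_right _ _
  have r4 : ρ₀ < 1 := by
    rw [hρ₀]
    exact max_lt (max_lt h1 h2) (by norm_num)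
  set τ : ℝ := (1 - ρ₀) / 8 with hτ
  have t0 : 0 < τ := by rw [hτ]; linarith
  have t1 : τ ≤ 1 := by rw [hτ]; linarith
  set r : ℝ := A / A' with hr
  have hr1 : 1 ≤ r := by rw [hr, le_div_iff₀ hA']; linarith
  obtain ⟨p, hp⟩ := exists_nat_gt ((r - 1) / τ)
  obtain ⟨e, he⟩ := exists_nat_gt ((1 / τ - 1) / τ)
  have hR : 1 ≤ 1 / τ := by rw [le_div_iff₀ t0]; linarith
  have p0 : (0 : ℝ) < p := (div_nonneg (by linarith) t0.le).trans_lt hp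
  have e0 : (0 : ℝ) < e := (div_nonneg (by linarith) t0.le).trans_lt he
  have p1 : 0 < p := by exact_mod_cast p0
  have e1 : 0 < e := by exact_mod_cast e0
  have p2 : (r - 1) / p ≤ τ := by
    rw [div_le_iff₀ p0]
    rw [div_lt_iff₀ t0] at hp
    linarith
  have e2 : (1 / τ - 1) / e ≤ τ := by
    rw [div_le_iff₀ e0]
    rw [div_lt_iff₀ t0] at he
    linarith
  have p3 : 0 ≤ (r - 1) / (p : ℝ) := div_nonneg (by linarith) p0.le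
  have e3 : 0 ≤ (1 / τ - 1) / (e : ℝ) := div_nonneg (by linarith) e0.le
  refine ⟨e * (1 + p), ρ₀ * (1 + τ) ^ 3, r * (1 + τ) ^ 2, by positivity, ?_, ?_, ?_⟩
  · have h3 : (1 + τ) ^ 3 ≤ 1 + 7 * τ := by nlinarith [mul_nonneg t0.le t0.le]
    have h4 : ρ₀ * (1 + τ) ^ 3 ≤ ρ₀ * (1 + 7 * τ) :=
      mul_le_mul_of_nonneg_left h3 (by linarith)
    have h5 : ρ₀ * (1 + 7 * τ) < 1 := by
      rw [hτ]
      nlinarith
    linarith
  · have : 1 ≤ (1 + τ) ^ 2 := by nlinarith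
    nlinarith
  · intro n q s s' L C hC hD f1 f2 f3 k1 k2 k3 gA gA' gB gB' M gM hM1 𝒜 hw hrel
    obtain ⟨C', hC', hcard⟩ := exists_subset_card_eq hD
    have h3 := twoClass_fixed hA' hAA hB' hB r1 r2 hr t0 t1 (hC'.trans hC) e1 p1 hcard
      k1 k2 k3 gA gA' gB gB' gM hM1 𝒜 hw
      (fun w hw' i j c hc => hrel w hw' i j c (hC' hc))
    refine h3.trans ?_
    have hM0 : 0 ≤ M := by linarith
    have a1 : r * (1 + (r - 1) / p) * (1 + (1 / τ - 1) / e) ≤ r * (1 + τ) ^ 2 := by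
      have : (1 + (r - 1) / (p : ℝ)) * (1 + (1 / τ - 1) / (e : ℝ)) ≤ (1 + τ) * (1 + τ) :=
        mul_le_mul (by linarith) (by linarith) (by linarith) (by linarith)
      calc r * (1 + (r - 1) / p) * (1 + (1 / τ - 1) / e)
          = r * ((1 + (r - 1) / (p : ℝ)) * (1 + (1 / τ - 1) / (e : ℝ))) := by ring
        _ ≤ r * ((1 + τ) * (1 + τ)) := mul_le_mul_of_nonneg_left this (by linarith)
        _ = r * (1 + τ) ^ 2 := by ring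
    have a2 : ρ₀ * (1 + τ) * (1 + (r - 1) / p) * (1 + (1 / τ - 1) / e) ≤
        ρ₀ * (1 + τ) ^ 3 := by
      have : (1 + (r - 1) / (p : ℝ)) * (1 + (1 / τ - 1) / (e : ℝ)) ≤ (1 + τ) * (1 + τ) :=
        mul_le_mul (by linarith) (by linarith) (by linarith) (by linarith)
      calc ρ₀ * (1 + τ) * (1 + (r - 1) / p) * (1 + (1 / τ - 1) / e)
          = (ρ₀ * (1 + τ)) * ((1 + (r - 1) / (p : ℝ)) * (1 + (1 / τ - 1) / (e : ℝ))) := by ring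
        _ ≤ (ρ₀ * (1 + τ)) * ((1 + τ) * (1 + τ)) :=
            mul_le_mul_of_nonneg_left this (by positivity)
        _ = ρ₀ * (1 + τ) ^ 3 := by ring
    have b1 : 0 ≤ r * (1 + (r - 1) / (p : ℝ)) * (1 + (1 / τ - 1) / (e : ℝ)) := by
      have : 0 ≤ r := by linarith
      positivity
    have b2 : 0 ≤ ρ₀ * (1 + τ) * (1 + (r - 1) / (p : ℝ)) * (1 + (1 / τ - 1) / (e : ℝ)) := by
      positivity
    refine mul_le_mul (mul_le_mul_of_nonneg_left (pow_le_pow_left₀ b1 a1 L) hM0)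
      (pow_le_pow_left₀ b2 a2 _) (by positivity) ?_
    exact mul_nonneg hM0 (pow_nonneg (b1.trans a1) _)

theorem TC.mono {A A' B B' : ℝ} {D D' : ℕ} {ρ K ρ' K' : ℝ} (h : TC A A' B B' D ρ K)
    (hD : D ≤ D') (hρ0 : 0 ≤ ρ) (hρ : ρ ≤ ρ') (hK0 : 0 ≤ K) (hK : K ≤ K') :
    TC A A' B B' D' ρ' K' := by
  intro n q s s' L C hC hCD f1 f2 f3 k1 k2 k3 gA gA' gB gB' M gM hM1 𝒜 hw hrel
  refine (h n q s s' L C hC (hD.trans hCD) f1 f2 f3 k1 k2 k3 gA gA' gB gB' M gM hM1 𝒜 hw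
    hrel).trans ?_
  have hM0 : 0 ≤ M := by linarith
  refine mul_le_mul (mul_le_mul_of_nonneg_left (pow_le_pow_left₀ hK0 hK L) hM0)
    (pow_le_pow_left₀ hρ0 hρ _) (by positivity) ?_
  exact mul_nonneg hM0 (pow_nonneg (hK0.trans hK) _)

end Pool.Agent.C4U
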